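import Mathlib
import Pool.Agent.Helper17.Irr.Defs
import Pool.Agent.Helper17.Irr.DefsRes
import Pool.Agent.Helper17.Irr.DefsSix
import Pool.Agent.Helper17.Irr.DoublePlane
import Pool.Agent.Helper17.Irr.NormFormula
import Pool.Agent.Helper17.Irr.ResSplit
import Pool.Agent.Helper17.Irr.SixFormula

/-!
# The degree of irrationality of del Pezzo surfaces
-/

namespace Pool.Agent.Results.MP_577596_ag.DelPezzoIrr

open Pool.Agent.Helper17.Irr

universe u

/-- The formula for the degree of irrationality of a surface with function field `K` whose closed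
points have least degree `δ`: it is `1` if the surface is rational and `max 2 δ` otherwise. -/
def IrrValue (F : Type u) (K : Type u) [Field F] [Field K] [Algebra F K] (δ : ℕ) : Prop :=
  (IsRational F K → irr F K = 1) ∧ (¬ IsRational F K → irr F K = max 2 δ)

/-- The formula for the projective surface defined by the prime ideal `I`, together with the list
`s` of possible values of the least degree of a closed point. -/
def Formula {F : Type u} [Field F] {ι : Type} (wt : ι → ℕ) (I : Ideal (MvPolynomial ι F))
    [I.IsPrime] (s : Set ℕ) : Prop :=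
  IrrValue F (projFunctionField wt I) (minDegree I) ∧ minDegree I ∈ s

/-- Degree 1: smooth integral sextics in `P(3,2,1,1)`. -/
def DegreeOne (F : Type u) [Field F] : Prop :=
  ∀ (f : Fin 1 → MvPolynomial (Fin 4) F) [(Ideal.span (Set.range f)).IsPrime],
    (∀ i, (f i).IsWeightedHomogeneous ![3, 2, 1, 1] 6) → IsSmoothIntersection f →
      Formula ![3, 2, 1, 1] (Ideal.span (Set.range f)) {1}

/-- Degree 2: smooth integral quartics in `P(2,1,1,1)`. -/
def DegreeTwo (F : Type u) [Field F] : Prop :=
  ∀ (f : Fin 1 → MvPolynomial (Fin 4) F) [(Ideal.span (Set.range f)).IsPrime],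
    (∀ i, (f i).IsWeightedHomogeneous ![2, 1, 1, 1] 4) → IsSmoothIntersection f →
      Formula ![2, 1, 1, 1] (Ideal.span (Set.range f)) {1, 2}

/-- Degree 3: smooth integral cubic surfaces. -/
def DegreeThree (F : Type u) [Field F] : Prop :=
  ∀ (f : Fin 1 → MvPolynomial (Fin 4) F) [(Ideal.span (Set.range f)).IsPrime],
    (∀ i, (f i).IsHomogeneous 3) → IsSmoothIntersection f →
      Formula 1 (Ideal.span (Set.range f)) {1, 3}

/-- Degree 4: smooth integral intersections of two quadrics in `P⁴`. -/
def DegreeFour (F : Type u) [Field F] : Prop :=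
  ∀ (f : Fin 2 → MvPolynomial (Fin 5) F) [(Ideal.span (Set.range f)).IsPrime],
    (∀ i, (f i).IsHomogeneous 2) → IsSmoothIntersection f →
      Formula 1 (Ideal.span (Set.range f)) {1, 2, 4}

/-- Degree 6: for a quadratic étale algebra `E = F[ω]`, `ω² = p + q ω`, a cubic étale algebra `M`
and units `a` of `E` and `b` of `M` with equal norms, the surface with the equations
`z * conj z = b * w ^ 2` and `b * adj z = a * w * conj z` in the projective space of
`E ⊗ M ⊕ F`. -/
def DegreeSix (F : Type u) [Field F] : Prop :=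
  ∀ (p q : F), q ^ 2 + 4 * p ≠ 0 → ∀ (M : Type u) [CommRing M] [Algebra F M]
    [Algebra.Etale F M] (bM : Module.Basis (Fin 3) F M) (a : QA p q F) (b : M)
    [(sixIdeal bM a b).IsPrime], IsUnit a → IsUnit b →
    Algebra.norm F b = QuadraticAlgebra.norm a → Formula 1 (sixIdeal bM a b) {1, 2, 3, 6}

/-- Degree 8: the Weil restriction of a smooth conic over a quadratic étale algebra
`E = F[ω]`, `ω² = p + q ω`. -/
def DegreeEight (F : Type u) [Field F] : Prop :=
  ∀ (p q : F), q ^ 2 + 4 * p ≠ 0 → ∀ (c : Fin 3 → Fin 3 → QA p q F)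
    [(Ideal.span (Set.range (resEquations c))).IsPrime],
    IsSmoothConic c → IsGeometricallyIntegral (resEquations c) →
    IrrValue F (FractionRing (MvPolynomial (Fin 4) F ⧸ Ideal.span (Set.range (resEquations c))))
      (resMinDegree c) ∧ resMinDegree c ∈ ({1, 2, 4} : Set ℕ)

/-- Degree 9: the norm surfaces `N(x) = a x₀³` of the separable cubic field extensions `M` of `F`;
for cyclic extensions they are birational to the Severi-Brauer surfaces. The least degree of a
closed point is `1` if `a` is a norm and `3` otherwise. -/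
def DegreeNine (F : Type u) [Field F] : Prop :=
  ∀ (M : Type u) [Field M] [Algebra F M] [Algebra.IsSeparable F M]
    (bM : Module.Basis (Fin 3) F M) (a : F)
    [(Ideal.span (Set.range fun _ : Fin 1 => normCubic bM a)).IsPrime], a ≠ 0 →
    Formula 1 (Ideal.span (Set.range fun _ : Fin 1 => normCubic bM a)) {1, 3} ∧
    (minDegree (Ideal.span (Set.range fun _ : Fin 1 => normCubic bM a)) = 1 ↔
      ∃ m : M, Algebra.norm F m = a)

/-- Rational surfaces: this covers degrees 5 and 7, the plane and its blow-up at a point. -/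
def RationalCase (F : Type u) [Field F] : Prop :=
  ∀ (K : Type u) [Field K] [Algebra F K], IsRational F K → irr F K = 1

/-- The degree of irrationality of del Pezzo surfaces over an arbitrary field `F`. -/
theorem result (F : Type u) [Field F] :
    DegreeOne F ∧ DegreeTwo F ∧ DegreeThree F ∧ DegreeFour F ∧ DegreeSix F ∧ DegreeEight F ∧
      DegreeNine F ∧ RationalCase F := by
  refine ⟨fun f _ hf hs => ?_, fun f _ hf hs => ?_, fun f _ hf hs => ?_, fun f _ hf hs => ?_,
    fun p q hpq M _ _ _ bM a b _ ha hb hab => ?_, fun p q hpq c _ hsm hgi => ?_,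
    fun M _ _ _ bM a _ ha => ?_, fun K _ _ h => h.irr_eq_one⟩
  · exact ⟨⟨fun h => h.irr_eq_one, (degree_one_formula f hf hs).1⟩, (degree_one_formula f hf hs).2⟩
  · exact ⟨⟨fun h => h.irr_eq_one, (degree_two_formula f hf hs).1⟩, (degree_two_formula f hf hs).2⟩
  · exact ⟨⟨fun h => h.irr_eq_one, (cubic_formula f hf hs).1⟩, (cubic_formula f hf hs).2⟩
  · exact ⟨⟨fun h => h.irr_eq_one, (quartic_formula f hf hs).1⟩, (quartic_formula f hf hs).2⟩
  · exact ⟨⟨fun h => h.irr_eq_one, (six_formula hpq ha hb hab).1⟩, (six_formula hpq ha hb hab).2⟩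
  · have h1 := res_formula hpq c hsm (isResGeneric c hgi)
    by_cases hpt : HasResPoint c F
    · have hr := h1.1 hpt
      have hδ : resMinDegree c = 1 := by
        have e1 := resMinDegree_le hpt
        rw [Module.finrank_self] at e1
        obtain ⟨L', _, _, _, e2, _⟩ := exists_resMinDegree hpt
        have e3 : 0 < Module.finrank F L' := Module.finrank_pos
        omega
      exact ⟨⟨fun h => h.irr_eq_one, fun h => absurd hr h⟩, Or.inl hδ⟩
    · obtain ⟨h2, h3⟩ := h1.2 hpt
      refine ⟨⟨fun h => h.irr_eq_one, fun _ => ?_⟩, ?_⟩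
      · rw [h2]
        omega
      · rcases h3 with h3 | h3
        · exact Or.inr (Or.inl h3)
        · exact Or.inr (Or.inr h3)
  · obtain ⟨h1, h2, h3⟩ := norm_formula bM a ha
    refine ⟨⟨⟨fun h => h.irr_eq_one, h1⟩, ?_⟩, ?_⟩
    · by_cases hm : ∃ m : M, Algebra.norm F m = a
      · exact Or.inl (h2 hm)
      · exact Or.inr (h3 hm)
    · constructor
      · intro h
        by_contra hm
        have := h3 hm
        omega
      · exact h2

end Pool.Agent.Results.MP_577596_ag.DelPezzoIrr
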